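import Mathlib

/-!
# Complex symmetric matrices, truncated Toeplitz operators and modified Aleksandrov-Clark bases

For every `n ≥ 3` there is an irreducible complex symmetric `n × n` matrix which is unitarily
equivalent to a truncated Toeplitz operator (the compressed shift on `K_Θ`, `Θ = z ^ n`), but which
is not the matrix of any truncated Toeplitz operator with respect to any modified Aleksandrov-Clark
basis.

Reason: in such a basis the entries `m i j`, `m j k`, `m k i` for distinct `i`, `j`, `k` satisfy a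
linear relation with nonzero real coefficients.
-/

set_option autoImplicit false

open MeasureTheory Filter
open scoped ENNReal ComplexConjugate InnerProductSpace

namespace Pool.Agent.Results.MP_3119c3_an.CompressedShift

noncomputable section

/-! ### Definitions -/

/-- Normalised Lebesgue measure on the unit circle, parametrised by `ℝ / ℤ`. -/
abbrev mT : Measure UnitAddCircle := AddCircle.haarAddCircle

/-- `L²` of the unit circle. -/
abbrev L2 : Type := Lp ℂ 2 mT

/-- The point `z = e^{2πit}` of the unit circle. -/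
def zz (t : UnitAddCircle) : ℂ := fourier 1 t

/-- The Hardy space `H²`: all `f ∈ L²` whose Fourier coefficients of negative index vanish. -/
def H2 : Submodule ℂ L2 :=
  (Submodule.span ℂ {f : L2 | ∃ k : ℤ, k < 0 ∧ f = fourierLp 2 k})ᗮ

/-- The model space `K_Θ = H² ⊖ Θ H²`. -/
def modelSpace (Θ : ℂ → ℂ) : Submodule ℂ L2 :=
  H2 ⊓ (Submodule.span ℂ {h : L2 | ∃ g ∈ H2, ⇑h =ᵐ[mT] fun t => Θ (zz t) * g t})ᗮ

instance (Θ : ℂ → ℂ) : (modelSpace Θ).HasOrthogonalProjection := by
  have h : IsClosed ((modelSpace Θ : Submodule ℂ L2) : Set L2) := by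
    unfold modelSpace H2
    rw [Submodule.coe_inf]
    exact (Submodule.isClosed_orthogonal _).inter (Submodule.isClosed_orthogonal _)
  have : CompleteSpace (modelSpace Θ) := h.completeSpace_coe
  infer_instance

/-- The truncated Toeplitz operator `A_φ f = P_Θ (φ f)` with symbol `φ ∈ L^∞`. -/
def tto (Θ : ℂ → ℂ) (φ : Lp ℂ ∞ mT) (f : L2) : L2 :=
  (modelSpace Θ).starProjection (φ • f : L2)

/-- `Θ` is a finite Blaschke product of degree `n`, that is, an inner function whose model space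
has dimension `n`. -/
def IsBlaschke (n : ℕ) (Θ : ℂ → ℂ) : Prop :=
  ∃ (γ : ℂ) (a : Fin n → ℂ), ‖γ‖ = 1 ∧ (∀ k, ‖a k‖ < 1) ∧
    ∀ z, Θ z = γ * ∏ k, (z - a k) / (1 - conj (a k) * z)

/-- `e` is an orthonormal basis of the subspace `K`. -/
def IsONB {n : ℕ} (K : Submodule ℂ L2) (e : Fin n → L2) : Prop :=
  Orthonormal ℂ e ∧ Submodule.span ℂ (Set.range e) = K

/-- The boundary kernel `k_ζ(z) = (1 - ᾱ Θ(z)) / (1 - ζ̄ z)`. -/
def bker (Θ : ℂ → ℂ) (α ζ : ℂ) (t : UnitAddCircle) : ℂ :=
  (1 - conj α * Θ (zz t)) / (1 - conj ζ * zz t)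

/-- `e` is a modified Aleksandrov-Clark basis of `K_Θ`: it is the orthonormal basis of the vectors
`w j k_{ζ j} / ‖k_{ζ j}‖`, where the `ζ j` are `n` different solutions of `Θ(ζ) = α` on the unit
circle, `|α| = 1`, and `|w j| = 1`, `(w j)² = α ζ̄_j`. -/
def IsModifiedAC {n : ℕ} (Θ : ℂ → ℂ) (e : Fin n → L2) : Prop :=
  IsONB (modelSpace Θ) e ∧ ∃ (α : ℂ) (ζ w : Fin n → ℂ), ‖α‖ = 1 ∧ Function.Injective ζ ∧
    (∀ j, ‖ζ j‖ = 1 ∧ Θ (ζ j) = α ∧ ‖w j‖ = 1 ∧ w j ^ 2 = α * conj (ζ j)) ∧
    ∀ j, ⇑(e j) =ᵐ[mT] fun t => w j *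
      (bker Θ α (ζ j) t / (Real.sqrt (∫ s, ‖bker Θ α (ζ j) s‖ ^ 2 ∂mT) : ℝ))

/-- `M` is the matrix of the truncated Toeplitz operator `A_φ` on `K_Θ` with respect to `e`. -/
def IsMatrixOf {n : ℕ} (M : Matrix (Fin n) (Fin n) ℂ) (Θ : ℂ → ℂ) (φ : Lp ℂ ∞ mT)
    (e : Fin n → L2) : Prop :=
  ∀ i j, M i j = ⟪e i, tto Θ φ (e j)⟫_ℂ

/-- `M` is unitarily equivalent to a truncated Toeplitz operator: it is the matrix of some
truncated Toeplitz operator with respect to some orthonormal basis of its model space. -/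
def IsUETTO {n : ℕ} (M : Matrix (Fin n) (Fin n) ℂ) : Prop :=
  ∃ (Θ : ℂ → ℂ) (φ : Lp ℂ ∞ mT) (e : Fin n → L2),
    IsBlaschke n Θ ∧ IsONB (modelSpace Θ) e ∧ IsMatrixOf M Θ φ e

/-- `M` has no nontrivial reducing subspace: every orthogonal projection commuting with `M` is
trivial. -/
def IsIrreducible {n : ℕ} (M : Matrix (Fin n) (Fin n) ℂ) : Prop :=
  ∀ P : Matrix (Fin n) (Fin n) ℂ, P.IsHermitian → P * P = P → P * M = M * P → P = 0 ∨ P = 1

/-! ### The relation for modified Aleksandrov-Clark bases -/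

lemma norm_zz (t : UnitAddCircle) : ‖zz t‖ = 1 := by
  unfold zz
  rw [fourier_one]
  exact Circle.norm_coe _

lemma inner_tto {Θ : ℂ → ℂ} {φ : Lp ℂ ∞ mT} {x y : L2} (hx : x ∈ modelSpace Θ) :
    ⟪x, tto Θ φ y⟫_ℂ = ⟪x, (φ • y : L2)⟫_ℂ := by
  have h := (modelSpace Θ).starProjection_inner_eq_zero (φ • y : L2) x hx
  have h2 : ⟪x, (φ • y : L2) - (modelSpace Θ).starProjection (φ • y : L2)⟫_ℂ = 0 := by
    rw [← inner_conj_symm, h, map_zero]
  rw [inner_sub_right, sub_eq_zero] at h2
  exact h2.symm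

lemma key_identity {ζ ξ z α T : ℂ} (hz : ‖z‖ = 1) (hζ : ‖ζ‖ = 1) (hξ : ‖ξ‖ = 1)
    (hne : ζ ≠ ξ) (hTζ : z = ζ → 1 - conj α * T = 0) (hTξ : z = ξ → 1 - conj α * T = 0) :
    (1 - ζ * conj ξ) * (conj ((1 - conj α * T) / (1 - conj ζ * z)) *
      ((1 - conj α * T) / (1 - conj ξ * z))) =
    (conj (1 - conj α * T) * (1 - conj α * T)) * (1 / (1 - conj ξ * z) - 1 / (1 - conj ζ * z)) := by
  by_cases h1 : z = ζ
  · rw [hTζ h1]; simp
  by_cases h2 : z = ξ
  · rw [hTξ h2]; simp
  have ez : conj z * z = 1 := by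
    rw [mul_comm, Complex.mul_conj, Complex.normSq_eq_norm_sq, hz]; simp
  have eζ : conj ζ * ζ = 1 := by
    rw [mul_comm, Complex.mul_conj, Complex.normSq_eq_norm_sq, hζ]; simp
  have eξ : conj ξ * ξ = 1 := by
    rw [mul_comm, Complex.mul_conj, Complex.normSq_eq_norm_sq, hξ]; simp
  have hz0 : z ≠ 0 := by rintro rfl; simp at hz
  have hζ0 : ζ ≠ 0 := by rintro rfl; simp at hζ
  have hξ0 : ξ ≠ 0 := by rintro rfl; simp at hξ
  have cz : conj z = 1 / z := by field_simp; linear_combination ez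
  have cζ : conj ζ = 1 / ζ := by field_simp; linear_combination eζ
  have cξ : conj ξ = 1 / ξ := by field_simp; linear_combination eξ
  have d1 : z - ζ ≠ 0 := sub_ne_zero.2 h1
  have d2 : z - ξ ≠ 0 := sub_ne_zero.2 h2
  have d3 : ζ - z ≠ 0 := sub_ne_zero.2 (Ne.symm h1)
  have d4 : ξ - z ≠ 0 := sub_ne_zero.2 (Ne.symm h2)
  rw [map_div₀, map_sub, map_one, map_sub, map_one, map_mul, map_mul, Complex.conj_conj,
    Complex.conj_conj, cz, cζ, cξ]
  have e1 : (1 : ℂ) - ζ * (1 / z) = (z - ζ) / z := by field_simp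
  have e2 : (1 : ℂ) - 1 / ξ * z = (ξ - z) / ξ := by field_simp
  have e3 : (1 : ℂ) - 1 / ζ * z = (ζ - z) / ζ := by field_simp
  have e4 : (1 : ℂ) - ζ * (1 / ξ) = (ξ - ζ) / ξ := by field_simp
  rw [e1, e2, e3, e4]
  field_simp
  ring

lemma relation {n : ℕ} {Θ : ℂ → ℂ} {φ : Lp ℂ ∞ mT} {e : Fin n → L2}
    {M : Matrix (Fin n) (Fin n) ℂ} (he : IsModifiedAC Θ e) (hM : IsMatrixOf M Θ φ e)
    {i j k : Fin n} (hij : i ≠ j) (hjk : j ≠ k) (hki : k ≠ i) :
    ∃ r s t : ℝ, r ≠ 0 ∧ s ≠ 0 ∧ t ≠ 0 ∧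
      (r : ℂ) * M i j + (s : ℂ) * M j k + (t : ℂ) * M k i = 0 := by
  obtain ⟨⟨honb, hspan⟩, α, ζ, w, hα, hinj, hζ, hform⟩ := he
  set N : Fin n → ℝ := fun j => Real.sqrt (∫ s, ‖bker Θ α (ζ j) s‖ ^ 2 ∂mT) with hN
  have hmem : ∀ j, e j ∈ modelSpace Θ := fun j => by
    rw [← hspan]; exact Submodule.subset_span ⟨j, rfl⟩
  have hN0 : ∀ j, N j ≠ 0 := by
    intro j h0
    have h1 : e j = 0 := by
      rw [Lp.eq_zero_iff_ae_eq_zero]
      filter_upwards [hform j] with t ht
      rw [ht]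
      have : (Real.sqrt (∫ s, ‖bker Θ α (ζ j) s‖ ^ 2 ∂mT)) = 0 := h0
      rw [this]
      simp
    have h2 := honb.1 j
    rw [h1, norm_zero] at h2
    exact zero_ne_one h2
  -- the integrand
  set D : UnitAddCircle → ℂ := fun t => 1 - conj α * Θ (zz t) with hD
  set h : Fin n → UnitAddCircle → ℂ := fun j t => 1 / (1 - conj (ζ j) * zz t) with hh
  set W : Fin n → Fin n → UnitAddCircle → ℂ := fun i j t =>
    φ t * ((conj (D t) * D t) * (h j t - h i t)) with hW
  set ρ : Fin n → Fin n → ℂ := fun i j => (1 - ζ i * conj (ζ j)) * (w i * conj (w j)) with hρ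
  have hαα : conj α * α = 1 := by
    rw [mul_comm, Complex.mul_conj, Complex.normSq_eq_norm_sq, hα]; simp
  have hww : ∀ j, conj (w j) * w j = 1 := fun j => by
    rw [mul_comm, Complex.mul_conj, Complex.normSq_eq_norm_sq, (hζ j).2.2.1]; simp
  have hζζ : ∀ j, conj (ζ j) * ζ j = 1 := fun j => by
    rw [mul_comm, Complex.mul_conj, Complex.normSq_eq_norm_sq, (hζ j).1]; simp
  have hWeq : ∀ a b : Fin n, a ≠ b → W a b =ᵐ[mT] fun t =>
      ((N a * N b : ℝ) * ρ a b) * ⟪(e a) t, (φ • e b : L2) t⟫_ℂ := by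
    intro a b hab
    filter_upwards [hform a, hform b, Lp.coeFn_lpSMul (p := ∞) (q := 2) (r := 2) φ (e b)]
      with t h1 h2 h3
    rw [h3, Pi.smul_apply', smul_eq_mul, RCLike.inner_apply, h1, h2]
    have hk := key_identity (ζ := ζ a) (ξ := ζ b) (z := zz t) (α := α) (T := Θ (zz t))
      (norm_zz t) (hζ a).1 (hζ b).1 (fun hc => hab (hinj hc))
      (fun hc => by rw [hc, (hζ a).2.1, hαα, sub_self])
      (fun hc => by rw [hc, (hζ b).2.1, hαα, sub_self])
    have hNa : ((N a : ℝ) : ℂ) ≠ 0 := by exact_mod_cast hN0 a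
    have hNb : ((N b : ℝ) : ℂ) ≠ 0 := by exact_mod_cast hN0 b
    have h5 := hww a
    have h6 := hww b
    set ka := bker Θ α (ζ a) t with hka
    set kb := bker Θ α (ζ b) t with hkb
    have hk' : (1 - ζ a * conj (ζ b)) * (conj ka * kb) =
      conj (D t) * D t * (h b t - h a t) := hk
    show φ t * ((conj (D t) * D t) * (h b t - h a t)) =
      (((N a * N b : ℝ) : ℂ) * ((1 - ζ a * conj (ζ b)) * (w a * conj (w b)))) *
      (φ t * (w b * (kb / ((N b : ℝ) : ℂ))) * conj (w a * (ka / ((N a : ℝ) : ℂ))))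
    have e1 : conj (w a * (ka / ((N a : ℝ) : ℂ))) = conj (w a) * (conj ka / ((N a : ℝ) : ℂ)) := by
      rw [map_mul, map_div₀, Complex.conj_ofReal]
    rw [← hk', e1]
    push_cast
    field_simp
    linear_combination (-(φ t * (1 - ζ a * conj (ζ b)) * conj ka * kb) *
      (conj (w b) * w b)) * h5 - (φ t * (1 - ζ a * conj (ζ b)) * conj ka * kb) * h6
  have hint : ∀ a b : Fin n, a ≠ b → Integrable (W a b) mT := fun a b hab =>
    ((L2.integrable_inner (𝕜 := ℂ) (e a) (φ • e b : L2)).const_mul _).congr (hWeq a b hab).symm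
  have hI : ∀ a b : Fin n, a ≠ b → ∫ t, W a b t ∂mT = ((N a * N b : ℝ) * ρ a b) * M a b := by
    intro a b hab
    rw [integral_congr_ae (hWeq a b hab), integral_const_mul, hM a b, inner_tto (hmem a),
      L2.inner_def]
  have hsum : ∫ t, W i j t ∂mT + ∫ t, W j k t ∂mT + ∫ t, W k i t ∂mT = 0 := by
    have a1 : ∫ t, (W i j t + W j k t) ∂mT = ∫ t, W i j t ∂mT + ∫ t, W j k t ∂mT :=
      integral_add (hint i j hij) (hint j k hjk)
    have a2 : ∫ t, ((W i j t + W j k t) + W k i t) ∂mT =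
        ∫ t, (W i j t + W j k t) ∂mT + ∫ t, W k i t ∂mT :=
      integral_add ((hint i j hij).add (hint j k hjk)) (hint k i hki)
    rw [← a1, ← a2]
    have : (fun t => (W i j t + W j k t) + W k i t) = fun _ => 0 := by
      funext t
      simp only [hW]
      ring
    rw [this]
    simp
  rw [hI i j hij, hI j k hjk, hI k i hki] at hsum
  -- `ρ a b` is purely imaginary and not zero
  have hconj : ∀ a b : Fin n, conj (ρ a b) = -ρ a b := by
    intro a b
    simp only [hρ, map_mul, map_sub, map_one, Complex.conj_conj]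
    have ha := (hζ a).2.2.2
    have hb := (hζ b).2.2.2
    have ha' : conj (w a) ^ 2 = conj α * ζ a := by
      rw [← map_pow, ha, map_mul, Complex.conj_conj]
    have h1 := hww a
    have h2 := hww b
    have h3 := hζζ a
    have h4 := hζζ b
    have e1 : conj (w a) = w a * (conj α * ζ a) := by
      rw [← ha']
      linear_combination (-conj (w a)) * h1
    have e2 : w b = conj (w b) * (α * conj (ζ b)) := by
      rw [← hb]
      linear_combination (-(w b)) * h2
    calc (1 - conj (ζ a) * ζ b) * (conj (w a) * w b)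
        = (1 - conj (ζ a) * ζ b) * ((w a * (conj α * ζ a)) * (conj (w b) * (α * conj (ζ b)))) := by
          rw [← e1, ← e2]
      _ = -((1 - ζ a * conj (ζ b)) * (w a * conj (w b))) := by
          linear_combination ((1 - conj (ζ a) * ζ b) * (w a * conj (w b)) * (ζ a * conj (ζ b))) * hαα
            - (w a * conj (w b)) * (conj (ζ b) * ζ b) * h3 - (w a * conj (w b)) * h4
  have hre : ∀ a b : Fin n, ρ a b = Complex.I * (((ρ a b).im : ℝ) : ℂ) := by
    intro a b
    have h1 := hconj a b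
    have h2 := congrArg Complex.re h1
    rw [Complex.conj_re, Complex.neg_re] at h2
    apply Complex.ext
    · simp; linarith
    · simp
  have hne : ∀ a b : Fin n, a ≠ b → (ρ a b).im ≠ 0 := by
    intro a b hab h0
    have h1 := hre a b
    rw [h0, Complex.ofReal_zero, mul_zero] at h1
    have hwa : w a ≠ 0 := fun hc => by have := hww a; rw [hc] at this; simp at this
    have hwb : conj (w b) ≠ 0 := fun hc => by have := hww b; rw [hc] at this; simp at this
    have h2 : 1 - ζ a * conj (ζ b) = 0 := by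
      rcases mul_eq_zero.1 h1 with h | h
      · exact h
      · exact absurd h (mul_ne_zero hwa hwb)
    apply hab
    apply hinj
    have h3 := hζζ b
    linear_combination (-(ζ b)) * h2 - (ζ a) * h3
  refine ⟨N i * N j * (ρ i j).im, N j * N k * (ρ j k).im, N k * N i * (ρ k i).im,
    mul_ne_zero (mul_ne_zero (hN0 _) (hN0 _)) (hne _ _ hij),
    mul_ne_zero (mul_ne_zero (hN0 _) (hN0 _)) (hne _ _ hjk),
    mul_ne_zero (mul_ne_zero (hN0 _) (hN0 _)) (hne _ _ hki), ?_⟩
  rw [hre i j, hre j k, hre k i] at hsum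
  have h5 : Complex.I * (((N i * N j * (ρ i j).im : ℝ) : ℂ) * M i j +
      ((N j * N k * (ρ j k).im : ℝ) : ℂ) * M j k + ((N k * N i * (ρ k i).im : ℝ) : ℂ) * M k i) = 0 := by
    rw [← hsum]
    push_cast
    ring
  rcases mul_eq_zero.1 h5 with h | h
  · exact absurd h Complex.I_ne_zero
  · exact h

/-! ### The compressed shift -/

/-- the symbol `φ(z) = z` -/
def shiftSymbol : Lp ℂ ∞ mT := fourierLp ∞ 1

/-- `z ^ n` -/
def pw (n : ℕ) (z : ℂ) : ℂ := z ^ n

lemma isBlaschke_pw (n : ℕ) : IsBlaschke n (pw n) :=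
  ⟨1, fun _ => 0, by simp, by simp, fun z => by simp [pw]⟩

lemma shift_fourier (k : ℤ) : (shiftSymbol • (fourierLp 2 k : L2) : L2) = fourierLp 2 (k + 1) := by
  apply Lp.ext
  filter_upwards [Lp.coeFn_lpSMul (p := ∞) (q := 2) (r := 2) shiftSymbol (fourierLp 2 k : L2),
    coeFn_fourierLp (T := 1) 2 k, coeFn_fourierLp (T := 1) 2 (k + 1),
    coeFn_fourierLp (T := 1) ∞ 1] with t h1 h2 h3 h4
  rw [h1, Pi.smul_apply', smul_eq_mul, h2, h3]
  have h5 : (shiftSymbol : UnitAddCircle → ℂ) t = fourier 1 t := h4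
  rw [h5, add_comm, fourier_add]

lemma inner_fourier (a b : ℤ) : ⟪(fourierLp 2 a : L2), (fourierLp 2 b : L2)⟫_ℂ =
    if a = b then 1 else 0 := by
  have h := orthonormal_iff_ite.1 (orthonormal_fourier (T := 1)) a b
  exact h

lemma mem_H2_iff (f : L2) : f ∈ H2 ↔ ∀ k : ℤ, k < 0 → ⟪(fourierLp 2 k : L2), f⟫_ℂ = 0 := by
  unfold H2
  rw [Submodule.mem_orthogonal]
  constructor
  · intro h k hk
    exact h _ (Submodule.subset_span ⟨k, hk, rfl⟩)
  · intro h u hu
    induction hu using Submodule.span_induction with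
    | mem x hx => obtain ⟨k, hk, rfl⟩ := hx; exact h k hk
    | zero => simp
    | add x y _ _ hx hy => rw [inner_add_left, hx, hy, add_zero]
    | smul c x _ hx => rw [inner_smul_left, hx, mul_zero]

lemma fourier_mem_H2 {k : ℤ} (hk : 0 ≤ k) : (fourierLp 2 k : L2) ∈ H2 := by
  rw [mem_H2_iff]
  intro j hj
  rw [inner_fourier, if_neg (by omega)]

lemma mem_model_iff {n : ℕ} (f : L2) : f ∈ modelSpace (pw n) ↔
    ∀ k : ℤ, (k < 0 ∨ (n : ℤ) ≤ k) → ⟪(fourierLp 2 k : L2), f⟫_ℂ = 0 := by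
  unfold modelSpace
  rw [Submodule.mem_inf, mem_H2_iff, Submodule.mem_orthogonal]
  constructor
  · rintro ⟨h1, h2⟩ k (hk | hk)
    · exact h1 k hk
    · apply h2
      apply Submodule.subset_span
      refine ⟨fourierLp 2 (k - n), fourier_mem_H2 (by omega), ?_⟩
      filter_upwards [coeFn_fourierLp (T := 1) 2 k, coeFn_fourierLp (T := 1) 2 (k - n)]
        with t h3 h4
      rw [h3, h4]
      have h5 : pw n (zz t) = fourier (n : ℤ) t := by
        unfold pw zz
        rw [fourier_one, fourier_apply, ← Circle.coe_pow]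
        congr 1
        rw [← AddCircle.toCircle_nsmul]
        congr 1
      rw [h5, ← fourier_add]
      congr 2
      ring
  · intro h
    refine ⟨fun k hk => h k (Or.inl hk), ?_⟩
    intro u hu
    -- `f` is a combination of the first monomials
    induction hu using Submodule.span_induction with
    | zero => simp
    | add x y _ _ hx hy => rw [inner_add_left, hx, hy, add_zero]
    | smul c x _ hx => rw [inner_smul_left, hx, mul_zero]
    | mem u hu =>
      obtain ⟨g, hg, hug⟩ := hu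
      rw [mem_H2_iff] at hg
      have hrep := (fourierBasis (T := 1)).tsum_inner_mul_inner u f
      rw [← hrep]
      have hz : ∀ k : ℤ, ⟪u, fourierBasis (T := 1) k⟫_ℂ * ⟪fourierBasis (T := 1) k, f⟫_ℂ = 0 := by
        intro k
        rw [coe_fourierBasis]
        by_cases hk : k < 0 ∨ (n : ℤ) ≤ k
        · rw [h k hk, mul_zero]
        · push Not at hk
          have h6 : ⟪u, (fourierLp 2 k : L2)⟫_ℂ = ⟪g, (fourierLp 2 (k - n) : L2)⟫_ℂ := by
            rw [L2.inner_def, L2.inner_def]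
            apply integral_congr_ae
            filter_upwards [hug, coeFn_fourierLp (T := 1) 2 k,
              coeFn_fourierLp (T := 1) 2 (k - n)] with t h7 h8 h9
            rw [h7, h8, h9, RCLike.inner_apply, RCLike.inner_apply]
            have h5 : pw n (zz t) = fourier (n : ℤ) t := by
              unfold pw zz
              rw [fourier_one, fourier_apply, ← Circle.coe_pow]
              congr 1
              rw [← AddCircle.toCircle_nsmul]
              congr 1
            rw [h5, map_mul, ← fourier_neg, ← mul_assoc, ← fourier_add]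
            congr 2
          rw [h6, ← inner_conj_symm, hg (k - n) (by omega)]
          simp
      rw [tsum_congr hz, tsum_zero]

/-- `(1 + i) / 2` -/
def aa : ℂ := (1 + Complex.I) / 2

lemma aa_mul_conj : aa * conj aa = 1 / 2 := by
  unfold aa
  rw [map_div₀, map_add, map_one, Complex.conj_I, map_ofNat]
  ring_nf
  rw [Complex.I_sq]; ring

lemma conj_mul_aa : conj aa * aa = 1 / 2 := by rw [mul_comm, aa_mul_conj]

lemma aa_sq : aa * aa = Complex.I / 2 := by
  unfold aa
  ring_nf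
  rw [Complex.I_sq]; ring

lemma conj_sq : conj aa * conj aa = -Complex.I / 2 := by
  unfold aa
  rw [map_div₀, map_add, map_one, Complex.conj_I, map_ofNat]
  ring_nf
  rw [Complex.I_sq]; ring

/-- an orthonormal basis of `K_Θ`, `Θ = z ^ n`, of vectors fixed by the conjugation -/
def uu (n : ℕ) (k : Fin n) : L2 :=
  aa • (fourierLp 2 ((k : ℕ) : ℤ) : L2) +
    conj aa • (fourierLp 2 ((n : ℤ) - 1 - ((k : ℕ) : ℤ)) : L2)

lemma orthonormal_uu (n : ℕ) : Orthonormal ℂ (uu n) := by
  rw [orthonormal_iff_ite]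
  intro i k
  have hi := i.2
  have hk := k.2
  unfold uu
  rw [inner_add_left, inner_add_right, inner_add_right]
  simp only [inner_smul_left, inner_smul_right, inner_fourier, Complex.conj_conj]
  by_cases hik : i = k
  · subst hik
    rw [if_pos rfl, if_pos rfl, if_pos rfl]
    by_cases h : ((i : ℕ) : ℤ) = (n : ℤ) - 1 - ((i : ℕ) : ℤ)
    · rw [if_pos h, if_pos h.symm]
      linear_combination aa_mul_conj + conj_mul_aa + aa_sq + conj_sq
    · rw [if_neg h, if_neg (Ne.symm h)]
      linear_combination aa_mul_conj + conj_mul_aa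
  · have hik' : (i : ℕ) ≠ k := fun h => hik (Fin.ext h)
    have g1 : ¬ ((i : ℕ) : ℤ) = ((k : ℕ) : ℤ) := by omega
    have g2 : ¬ ((n : ℤ) - 1 - ((i : ℕ) : ℤ) = (n : ℤ) - 1 - ((k : ℕ) : ℤ)) := by omega
    rw [if_neg g1, if_neg g2, if_neg hik]
    by_cases h : ((i : ℕ) : ℤ) = (n : ℤ) - 1 - ((k : ℕ) : ℤ)
    · rw [if_pos h, if_pos (by omega)]
      linear_combination aa_sq + conj_sq
    · rw [if_neg h, if_neg (by omega)]
      ring

lemma fourier_eq_uu {n : ℕ} (k : Fin n) : (fourierLp 2 ((k : ℕ) : ℤ) : L2) =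
    conj aa • uu n k + aa • uu n (Fin.rev k) := by
  have h1 : (((Fin.rev k : Fin n) : ℕ) : ℤ) = (n : ℤ) - 1 - ((k : ℕ) : ℤ) := by
    have := k.2
    rw [Fin.val_rev]
    omega
  unfold uu
  rw [h1]
  have h2 : (n : ℤ) - 1 - ((n : ℤ) - 1 - ((k : ℕ) : ℤ)) = ((k : ℕ) : ℤ) := by ring
  rw [h2]
  generalize (fourierLp 2 ((k : ℕ) : ℤ) : L2) = b
  generalize (fourierLp 2 ((n : ℤ) - 1 - ((k : ℕ) : ℤ)) : L2) = b'
  have e : conj aa • (aa • b + conj aa • b') + aa • (aa • b' + conj aa • b) =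
      (conj aa * aa + aa * conj aa) • b + (conj aa * conj aa + aa * aa) • b' := by
    module
  rw [e, conj_mul_aa, aa_mul_conj, conj_sq, aa_sq]
  have e1 : (1 / 2 + 1 / 2 : ℂ) = 1 := by norm_num
  have e2 : (-Complex.I / 2 + Complex.I / 2 : ℂ) = 0 := by ring
  rw [e1, e2, one_smul, zero_smul, add_zero]

lemma isONB_uu (n : ℕ) : IsONB (modelSpace (pw n)) (uu n) := by
  refine ⟨orthonormal_uu n, le_antisymm ?_ ?_⟩
  · rw [Submodule.span_le]
    rintro _ ⟨k, rfl⟩
    show uu n k ∈ modelSpace (pw n)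
    rw [mem_model_iff]
    intro m hm
    have hk := k.2
    unfold uu
    rw [inner_add_right, inner_smul_right, inner_smul_right, inner_fourier, inner_fourier,
      if_neg (by omega), if_neg (by omega)]
    simp
  · intro f hf
    rw [mem_model_iff] at hf
    have h1 : f = ∑ k : Fin n, ⟪(fourierLp 2 ((k : ℕ) : ℤ) : L2), f⟫_ℂ •
        (fourierLp 2 ((k : ℕ) : ℤ) : L2) := by
      apply (fourierBasis (T := 1)).repr.injective
      ext m
      rw [HilbertBasis.repr_apply_apply, HilbertBasis.repr_apply_apply, coe_fourierBasis,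
        inner_sum]
      simp only [inner_smul_right, inner_fourier]
      by_cases hm : m < 0 ∨ (n : ℤ) ≤ m
      · rw [hf m hm, Finset.sum_eq_zero]
        intro k _
        have hk := k.2
        rw [if_neg (by omega), mul_zero]
      · push Not at hm
        obtain ⟨j, hj⟩ : ∃ j : Fin n, ((j : ℕ) : ℤ) = m := ⟨⟨m.toNat, by omega⟩, by simp; omega⟩
        rw [Finset.sum_eq_single j]
        · rw [hj, if_pos rfl, mul_one]
        · intro b _ hb
          have : (b : ℕ) ≠ j := fun h => hb (Fin.ext h)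
          rw [if_neg (by omega), mul_zero]
        · intro h
          exact absurd (Finset.mem_univ j) h
    rw [h1]
    refine Submodule.sum_mem _ fun k _ => Submodule.smul_mem _ _ ?_
    rw [fourier_eq_uu]
    exact Submodule.add_mem _ (Submodule.smul_mem _ _ (Submodule.subset_span ⟨_, rfl⟩))
      (Submodule.smul_mem _ _ (Submodule.subset_span ⟨_, rfl⟩))

/-- the matrix of the compressed shift with respect to `uu n` -/
def MM (n : ℕ) : Matrix (Fin n) (Fin n) ℂ := fun i k =>
  (1 / 2) * ((if (i : ℕ) = (k : ℕ) + 1 then 1 else 0) + (if (k : ℕ) = (i : ℕ) + 1 then 1 else 0) +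
    Complex.I * (if (i : ℕ) + k + 2 = n then 1 else 0) -
    Complex.I * (if (i : ℕ) + k = n then 1 else 0))

lemma MM_symm (n : ℕ) : (MM n).transpose = MM n := by
  ext i k
  rw [Matrix.transpose_apply]
  unfold MM
  rw [add_comm (k : ℕ) i]
  ring

lemma isMatrixOf_MM (n : ℕ) : IsMatrixOf (MM n) (pw n) shiftSymbol (uu n) := by
  intro i k
  have hmem : uu n i ∈ modelSpace (pw n) := by
    rw [← (isONB_uu n).2]; exact Submodule.subset_span ⟨i, rfl⟩
  rw [inner_tto hmem]
  have h1 : (shiftSymbol • uu n k : L2) = aa • (fourierLp 2 (((k : ℕ) : ℤ) + 1) : L2) +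
      conj aa • (fourierLp 2 ((n : ℤ) - 1 - ((k : ℕ) : ℤ) + 1) : L2) := by
    unfold uu
    rw [Lp.add_smul, ← Lp.smul_comm, ← Lp.smul_comm, shift_fourier, shift_fourier]
  have hi := i.2
  have hk := k.2
  rw [h1]
  unfold uu
  rw [inner_add_left, inner_add_right, inner_add_right]
  simp only [inner_smul_left, inner_smul_right, inner_fourier, Complex.conj_conj]
  unfold MM
  have c1 : (((i : ℕ) : ℤ) = ((k : ℕ) : ℤ) + 1) ↔ ((i : ℕ) = (k : ℕ) + 1) := by omega
  have c2 : (((i : ℕ) : ℤ) = (n : ℤ) - 1 - ((k : ℕ) : ℤ) + 1) ↔ ((i : ℕ) + k = n) := by omega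
  have c3 : ((n : ℤ) - 1 - ((i : ℕ) : ℤ) = ((k : ℕ) : ℤ) + 1) ↔ ((i : ℕ) + k + 2 = n) := by omega
  have c4 : ((n : ℤ) - 1 - ((i : ℕ) : ℤ) = (n : ℤ) - 1 - ((k : ℕ) : ℤ) + 1) ↔
      ((k : ℕ) = (i : ℕ) + 1) := by omega
  simp only [c1, c2, c3, c4]
  generalize (if (i : ℕ) = (k : ℕ) + 1 then (1 : ℂ) else 0) = x1
  generalize (if (i : ℕ) + k = n then (1 : ℂ) else 0) = x2
  generalize (if (i : ℕ) + k + 2 = n then (1 : ℂ) else 0) = x3
  generalize (if (k : ℕ) = (i : ℕ) + 1 then (1 : ℂ) else 0) = x4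
  linear_combination (-x1) * conj_mul_aa - x4 * aa_mul_conj - x3 * aa_sq - x2 * conj_sq

/-! ### Irreducibility -/

/-- the flip -/
def FF (n : ℕ) : Matrix (Fin n) (Fin n) ℂ := fun i k => if i = Fin.rev k then 1 else 0

/-- the nilpotent Jordan block -/
def JJ (n : ℕ) : Matrix (Fin n) (Fin n) ℂ := fun i k => if (i : ℕ) = (k : ℕ) + 1 then 1 else 0

lemma mul_FF {n : ℕ} (A : Matrix (Fin n) (Fin n) ℂ) (i k : Fin n) :
    (A * FF n) i k = A i (Fin.rev k) := by
  simp [Matrix.mul_apply, FF]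

lemma FF_mul {n : ℕ} (A : Matrix (Fin n) (Fin n) ℂ) (i k : Fin n) :
    (FF n * A) i k = A (Fin.rev i) k := by
  have h : ∀ j : Fin n, (i = Fin.rev j) ↔ (j = Fin.rev i) := fun j => by
    constructor
    · rintro rfl; rw [Fin.rev_rev]
    · rintro rfl; rw [Fin.rev_rev]
  simp [Matrix.mul_apply, FF, h]

lemma FF_FF (n : ℕ) : FF n * FF n = 1 := by
  ext i k
  rw [mul_FF]
  simp [FF, Matrix.one_apply]

lemma FF_herm (n : ℕ) : (FF n).conjTranspose = FF n := by
  ext i k
  rw [Matrix.conjTranspose_apply]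
  have h : (k = Fin.rev i) ↔ (i = Fin.rev k) := by
    constructor
    · rintro rfl; rw [Fin.rev_rev]
    · rintro rfl; rw [Fin.rev_rev]
  simp [FF, h]

/-- the unitary matrix -/
def UU (n : ℕ) : Matrix (Fin n) (Fin n) ℂ := aa • (1 : Matrix (Fin n) (Fin n) ℂ) + conj aa • FF n

/-- its adjoint -/
def VV (n : ℕ) : Matrix (Fin n) (Fin n) ℂ := conj aa • (1 : Matrix (Fin n) (Fin n) ℂ) + aa • FF n

lemma UU_VV (n : ℕ) : UU n * VV n = 1 := by
  unfold UU VV
  rw [add_mul, mul_add, mul_add]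
  simp only [Matrix.smul_mul, Matrix.mul_smul, Matrix.one_mul, Matrix.mul_one, FF_FF, smul_smul]
  rw [show aa * conj aa = 1 / 2 from aa_mul_conj, show conj aa * aa = 1 / 2 from conj_mul_aa,
    aa_sq, conj_sq]
  module

lemma VV_UU (n : ℕ) : VV n * UU n = 1 := by
  unfold UU VV
  rw [add_mul, mul_add, mul_add]
  simp only [Matrix.smul_mul, Matrix.mul_smul, Matrix.one_mul, Matrix.mul_one, FF_FF, smul_smul]
  rw [show aa * conj aa = 1 / 2 from aa_mul_conj, show conj aa * aa = 1 / 2 from conj_mul_aa,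
    aa_sq, conj_sq]
  module

lemma UU_herm (n : ℕ) : (UU n).conjTranspose = VV n := by
  unfold UU VV
  rw [Matrix.conjTranspose_add, Matrix.conjTranspose_smul, Matrix.conjTranspose_smul,
    Matrix.conjTranspose_one, FF_herm]
  simp

lemma VV_herm (n : ℕ) : (VV n).conjTranspose = UU n := by
  rw [← UU_herm, Matrix.conjTranspose_conjTranspose]

lemma MM_eq (n : ℕ) : MM n = VV n * JJ n * UU n := by
  unfold UU VV
  rw [add_mul, add_mul, mul_add, mul_add]
  simp only [Matrix.smul_mul, Matrix.mul_smul, Matrix.one_mul, Matrix.mul_one, smul_smul]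
  ext i k
  have hi := i.2
  have hk := k.2
  simp only [Matrix.add_apply, Matrix.smul_apply, mul_FF, FF_mul, smul_eq_mul]
  unfold MM JJ
  have c2 : ((i : ℕ) = ((Fin.rev k : Fin n) : ℕ) + 1) ↔ ((i : ℕ) + k = n) := by
    rw [Fin.val_rev]; omega
  have c3 : (((Fin.rev i : Fin n) : ℕ) = (k : ℕ) + 1) ↔ ((i : ℕ) + k + 2 = n) := by
    rw [Fin.val_rev]; omega
  have c4 : (((Fin.rev i : Fin n) : ℕ) = ((Fin.rev k : Fin n) : ℕ) + 1) ↔
      ((k : ℕ) = (i : ℕ) + 1) := by rw [Fin.val_rev, Fin.val_rev]; omega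
  simp only [c2, c3, c4]
  generalize (if (i : ℕ) = (k : ℕ) + 1 then (1 : ℂ) else 0) = x1
  generalize (if (i : ℕ) + k = n then (1 : ℂ) else 0) = x2
  generalize (if (i : ℕ) + k + 2 = n then (1 : ℂ) else 0) = x3
  generalize (if (k : ℕ) = (i : ℕ) + 1 then (1 : ℂ) else 0) = x4
  linear_combination (-x1) * conj_mul_aa - x4 * aa_mul_conj - x3 * aa_sq - x2 * conj_sq

lemma scalar_of_comm {n : ℕ} (Q : Matrix (Fin (n + 1)) (Fin (n + 1)) ℂ) (hQ : Q.IsHermitian)
    (hc : Q * JJ (n + 1) = JJ (n + 1) * Q) : Q = Q 0 0 • 1 := by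
  -- entries
  have hR : ∀ (i k : Fin (n + 1)) (h : (k : ℕ) + 1 < n + 1),
      (Q * JJ (n + 1)) i k = Q i ⟨(k : ℕ) + 1, h⟩ := by
    intro i k h
    rw [Matrix.mul_apply, Finset.sum_eq_single ⟨(k : ℕ) + 1, h⟩]
    · simp [JJ]
    · intro b _ hb
      have : (b : ℕ) ≠ k + 1 := fun h' => hb (Fin.ext h')
      simp [JJ, this]
    · intro h'; exact absurd (Finset.mem_univ _) h'
  have hL : ∀ (i k : Fin (n + 1)) (h : (i : ℕ) + 1 < n + 1),
      (JJ (n + 1) * Q) ⟨(i : ℕ) + 1, h⟩ k = Q i k := by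
    intro i k h
    rw [Matrix.mul_apply, Finset.sum_eq_single i]
    · simp [JJ]
    · intro b _ hb
      have : ¬ ((i : ℕ) = (b : ℕ)) := fun h' => hb (Fin.ext h'.symm)
      simp [JJ, this]
    · intro h'; exact absurd (Finset.mem_univ _) h'
  have hL0 : ∀ k : Fin (n + 1), (JJ (n + 1) * Q) 0 k = 0 := by
    intro k
    rw [Matrix.mul_apply]
    apply Finset.sum_eq_zero
    intro b _
    simp [JJ]
  -- strictly upper entries vanish and the diagonal is constant
  have hup : ∀ (i k : ℕ) (hi : i < n + 1) (hk : k < n + 1),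
      Q ⟨i, hi⟩ ⟨k, hk⟩ = if i < k then 0 else if i = k then Q 0 0 else Q ⟨i, hi⟩ ⟨k, hk⟩ := by
    intro i
    induction i with
    | zero =>
      intro k hi hk
      cases k with
      | zero => simp
      | succ k =>
        have h1 := hR 0 ⟨k, by omega⟩ hk
        rw [hc, hL0] at h1
        simp only [Nat.succ_pos, if_true]
        exact h1.symm
    | succ i ih =>
      intro k hi hk
      cases k with
      | zero => simp
      | succ k =>
        have h1 := hR ⟨i + 1, hi⟩ ⟨k, by omega⟩ hk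
        rw [hc] at h1
        have h2 := hL ⟨i, by omega⟩ ⟨k, by omega⟩ hi
        have h3 : Q ⟨i + 1, hi⟩ ⟨k + 1, hk⟩ = Q ⟨i, by omega⟩ ⟨k, by omega⟩ := by
          rw [← h2]; exact h1.symm
        rcases lt_trichotomy i k with h | h | h
        · rw [if_pos (by omega), h3, ih k (by omega) (by omega), if_pos h]
        · subst h
          rw [if_neg (by omega), if_pos rfl, h3, ih i (by omega) (by omega), if_neg (by omega),
            if_pos rfl]
        · rw [if_neg (by omega), if_neg (by omega)]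
  ext i k
  rw [Matrix.smul_apply, Matrix.one_apply]
  rcases lt_trichotomy i k with h | h | h
  · have := hup i k i.2 k.2
    rw [if_pos (by exact h)] at this
    rw [if_neg (ne_of_lt h), smul_zero]
    exact this
  · subst h
    have := hup i i i.2 i.2
    rw [if_neg (lt_irrefl _), if_pos rfl] at this
    rw [if_pos rfl, smul_eq_mul, mul_one]
    exact this
  · have := hup k i k.2 i.2
    rw [if_pos (by exact h)] at this
    rw [if_neg (ne_of_gt h), smul_zero]
    have h2 := hQ.apply k i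
    have h3 : Q k i = 0 := this
    rw [h3] at h2
    have h4 := congrArg star h2
    simpa using h4

lemma irreducible_MM (n : ℕ) : IsIrreducible (MM (n + 1)) := by
  intro P hP hPP hc
  set U := UU (n + 1)
  set V := VV (n + 1)
  have hUV : U * V = 1 := UU_VV _
  have hVU : V * U = 1 := VV_UU _
  have hQ : (U * P * V).IsHermitian := by
    unfold Matrix.IsHermitian
    rw [Matrix.conjTranspose_mul, Matrix.conjTranspose_mul, VV_herm, UU_herm, hP.eq, ← mul_assoc]
  have hcomm : (U * P * V) * JJ (n + 1) = JJ (n + 1) * (U * P * V) := by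
    have h1 : MM (n + 1) = V * JJ (n + 1) * U := MM_eq _
    rw [h1] at hc
    calc (U * P * V) * JJ (n + 1) = U * (P * (V * JJ (n + 1) * U)) * V := by
          calc _ = U * P * V * JJ (n + 1) * (U * V) := by rw [hUV, mul_one]
            _ = _ := by simp only [mul_assoc]
      _ = U * ((V * JJ (n + 1) * U) * P) * V := by rw [hc]
      _ = (U * V) * JJ (n + 1) * (U * P * V) := by simp only [mul_assoc]
      _ = _ := by rw [hUV, one_mul]
  have h2 := scalar_of_comm _ hQ hcomm
  set c := (U * P * V) 0 0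
  have h3 : P = c • 1 := by
    calc P = (V * U) * P * (V * U) := by rw [hVU, one_mul, mul_one]
      _ = V * (U * P * V) * U := by simp only [mul_assoc]
      _ = V * (c • 1) * U := by rw [h2]
      _ = c • 1 := by
        rw [Matrix.mul_smul, Matrix.smul_mul, mul_one, hVU]
  have h4 : c * c = c := by
    have h5 := congrFun (congrFun hPP 0) 0
    rw [h3] at h5
    simpa using h5
  have h6 : c = 0 ∨ c = 1 := by
    have : c * (c - 1) = 0 := by linear_combination h4
    rcases mul_eq_zero.1 this with h | h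
    · exact Or.inl h
    · exact Or.inr (by linear_combination h)
  rcases h6 with h | h
  · left; rw [h3, h, zero_smul]
  · right; rw [h3, h, one_smul]

lemma not_AC {n : ℕ} (hn : 3 ≤ n) {Θ : ℂ → ℂ} {φ : Lp ℂ ∞ mT} {e : Fin n → L2}
    (he : IsModifiedAC Θ e) (hM : IsMatrixOf (MM n) Θ φ e) : False := by
  rcases Nat.lt_or_ge n 5 with h5 | h5
  · rcases Nat.lt_or_ge n 4 with h4 | h4
    · obtain rfl : n = 3 := by omega
      obtain ⟨r, s, t, hr, hs, ht, h⟩ := relation he hM (i := 0) (j := 1) (k := 2)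
        (by decide) (by decide) (by decide)
      have m1 : MM 3 0 1 = (1 / 2) * (1 + Complex.I) := by simp [MM]
      have m2 : MM 3 1 2 = (1 / 2) * (1 - Complex.I) := by simp [MM]
      have m3 : MM 3 2 0 = 0 := by simp [MM]
      rw [m1, m2, m3] at h
      have hre := congrArg Complex.re h
      have him := congrArg Complex.im h
      simp at hre him
      apply hr
      linarith
    · obtain rfl : n = 4 := by omega
      obtain ⟨r, s, t, hr, hs, ht, h⟩ := relation he hM (i := 0) (j := 1) (k := 2)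
        (by decide) (by decide) (by decide)
      have m1 : MM 4 0 1 = 1 / 2 := by simp [MM]
      have m2 : MM 4 1 2 = 1 / 2 := by simp [MM]
      have m3 : MM 4 2 0 = (1 / 2) * Complex.I := by simp [MM]
      rw [m1, m2, m3] at h
      have him := congrArg Complex.im h
      simp at him
      exact ht him
  · obtain ⟨m, rfl⟩ : ∃ m, n = m + 5 := ⟨n - 5, by omega⟩
    obtain ⟨r, s, t, hr, hs, ht, h⟩ := relation he hM (i := (⟨0, by omega⟩ : Fin (m + 5)))
      (j := ⟨1, by omega⟩) (k := ⟨m + 3, by omega⟩) (by simp) (by simp) (by simp)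
    have m1 : MM (m + 5) ⟨0, by omega⟩ ⟨1, by omega⟩ = 1 / 2 := by
      unfold MM
      simp only
      rw [if_neg (show ¬ (0 : ℕ) = 1 + 1 by omega), if_pos trivial,
        if_neg (show ¬ 0 + 1 + 2 = m + 5 by omega), if_neg (show ¬ 0 + 1 = m + 5 by omega)]
      ring
    have m2 : MM (m + 5) ⟨1, by omega⟩ ⟨m + 3, by omega⟩ = 0 := by
      unfold MM
      simp only
      rw [if_neg (by omega), if_neg (by omega), if_neg (by omega), if_neg (by omega)]
      ring
    have m3 : MM (m + 5) ⟨m + 3, by omega⟩ ⟨0, by omega⟩ = (1 / 2) * Complex.I := by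
      unfold MM
      simp only
      rw [if_neg (show ¬ m + 3 = 0 + 1 by omega), if_neg (show ¬ 0 = m + 3 + 1 by omega),
        if_pos trivial, if_neg (show ¬ m + 3 + 0 = m + 5 by omega)]
      ring
    rw [m1, m2, m3] at h
    have hre := congrArg Complex.re h
    simp at hre
    exact hr hre

/-- **Negative answer, in every dimension `n ≥ 3`, and for irreducible matrices.** For every
`n ≥ 3` there is a complex symmetric, irreducible matrix `M ∈ M_n(ℂ)` which is unitarily equivalent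
to a truncated Toeplitz operator, but which is not the matrix of any truncated Toeplitz operator
`A_φ` on any model space `K_Θ` with respect to any modified Aleksandrov-Clark basis of `K_Θ`. -/
theorem result (n : ℕ) (hn : 3 ≤ n) :
    ∃ M : Matrix (Fin n) (Fin n) ℂ, M.transpose = M ∧ IsIrreducible M ∧ IsUETTO M ∧
      ¬ ∃ (Θ : ℂ → ℂ) (φ : Lp ℂ ∞ mT) (e : Fin n → L2),
        IsBlaschke n Θ ∧ IsModifiedAC Θ e ∧ IsMatrixOf M Θ φ e := by
  refine ⟨MM n, MM_symm n, ?_, ⟨pw n, shiftSymbol, uu n, isBlaschke_pw n, isONB_uu n,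
    isMatrixOf_MM n⟩, ?_⟩
  · obtain ⟨m, rfl⟩ : ∃ m, n = m + 1 := ⟨n - 1, by omega⟩
    exact irreducible_MM m
  · rintro ⟨Θ, φ, e, -, he, hM⟩
    exact not_AC hn he hM

end

end Pool.Agent.Results.MP_3119c3_an.CompressedShift
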